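import Pool.Agent.H16.CC.Fam

/-!
# Schneider's conjecture at `3`, all Tate twists: 56 per cent of the cyclic cubic fields with `k` tamely ramified primes

`L` runs over the cyclic cubic fields which are ramified, outside `3`, at exactly `k` given prime numbers `q_0, …, q_(k-1)`
(there are `3 · 2^(k-1)` such fields for each set of prime numbers `≡ 1` modulo `3`), `q_i ≤ X_i`, where `X_0` is large, `X_1`
is large in terms of `X_0`, and so on. For EVERY `k ≥ 1` the share of the fields `L` such that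

`Ш¹(O_(K,S), Z_3(r)) = 0` for all subfields `K` of `L(ζ_3)`, ALL `r ≥ 1` and all `S`

is at least `(1 - 1/3) (1 - 1/9) ⋯ (1 - 1/3^k) - ε > 0.56 - ε`.

For `k = 1` the fields are the `3`-rational ones and their like, which are classical. For `k ≥ 2` the fields `L` are in general
neither `3`-rational nor `(3, i)`-regular: `k - 1` independent unramified or ramified cyclic extensions of degree `3` come from
genus theory, the group of genera does not vanish, and the `3`-adic `L`-functions of the cubic characters are not units.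

Proof. Let `F = ℚ(ζ_3)`. `L(ζ_3) = F(D^(1/3))`, where `D = ζ^z d_0 ⋯ d_(k-1)`, `σ D = D⁻¹`, `d_i` a normalised generator of
`Q_i / σ Q_i`, `Q_i` a prime of `F` above `q_i`; this gives each `L` exactly twice. By the method of
`AllTwistsKummerExtensions` (a hand-in of an earlier run; Fontaine-Mazur type reduction modulo the uniformizer of `Z_3[ζ_3]`) a
nonzero element of `Ш¹` for some `r` gives a class `a ∈ F^* / F^*³`, not a power of `D`, whose class is locally a power of `D`
at the ramified primes and at `3`, up to `3`-power roots of unity. Splitting `a` into its two eigencomponents for `σ` one finds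
by Kummer theory and reciprocity that such `a` exists only if a certain `k × k` matrix of cubic residue symbols between the
`q_i`, `Q_l` and of the classes of the `q_i` modulo `9` is singular (`CC/Crit`, `CC/Crit2`, `CC/Lin`). By Chebotarev's theorem
the matrices are equidistributed (`CC/Dens`, `CC/Nst`). Helper files: `Pool/Agent/H16/CC`.
-/

set_option autoImplicit false

namespace Pool.Agent.Results.MP_59f3ad_nt.CyclicCubicFields

open NumberField Filter

section

variable {Ω : Type} [Field Ω] [CharZero Ω]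

/-! ## Galois cohomology of the Tate twists `Z_p(r)` -/

/-- The `p`-adic cyclotomic character of the automorphisms of `Ω`. -/
noncomputable def chi (p : ℕ) [Fact p.Prime] (σ : Ω ≃ₐ[ℚ] Ω) : ℤ_[p] :=
  (cyclotomicCharacter Ω p (σ : Ω ≃+* Ω) : ℤ_[p])

/-- `σ` belongs to the decomposition group of the place of `Ω` given by the embedding `j`: it extends to a continuous
automorphism of the algebraic closure of `ℚ_l`. -/
def InDecomposition {l : ℕ} [Fact l.Prime] (j : Ω →+* PadicAlgCl l) (σ : Ω ≃ₐ[ℚ] Ω) : Prop :=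
  ∃ τ : PadicAlgCl l ≃ₐ[ℚ_[l]] PadicAlgCl l, ∀ x, τ (j x) = j (σ x)

/-- `σ` belongs to the inertia group of the place given by the embedding `j`. -/
def InInertia {l : ℕ} [Fact l.Prime] (j : Ω →+* PadicAlgCl l) (σ : Ω ≃ₐ[ℚ] Ω) : Prop :=
  InDecomposition j σ ∧ ∀ x, ‖j x‖ ≤ 1 → ‖j (σ x) - j x‖ < 1

/-- `f` is a continuous cocycle on the absolute Galois group of `K` with values in `Z_p(r)`, whose class belongs to
`Ш¹(O_(K,S), Z_p(r))`, where `S` is a set of prime numbers with `p ∈ S`: it is trivial on the inertia groups of the places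
not above the prime numbers of `S` (so it is a cocycle of the Galois group of the maximal extension of `K` unramified
outside `S` and infinity), and it is a coboundary on the decomposition groups of the places above the prime numbers of
`S`. (There is no condition at infinity, as `p` is odd.) -/
structure IsShaCocycle (p : ℕ) [Fact p.Prime] (S : Set ℕ) (r : ℕ) (K : IntermediateField ℚ Ω)
    (f : K.fixingSubgroup → ℤ_[p]) : Prop where
  cont : Continuous f
  cocycle : ∀ σ τ : K.fixingSubgroup, f (σ * τ) = f σ + chi p σ.1 ^ r * f τ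
  unramified : ∀ (l : ℕ) [Fact l.Prime], l ∉ S → ∀ (j : Ω →+* PadicAlgCl l) (σ : K.fixingSubgroup),
    InInertia j σ.1 → f σ = 0
  locally_trivial : ∀ (l : ℕ) [Fact l.Prime], l ∈ S → ∀ j : Ω →+* PadicAlgCl l, ∃ b : ℤ_[p],
    ∀ σ : K.fixingSubgroup, InDecomposition j σ.1 → f σ = (chi p σ.1 ^ r - 1) * b

/-- `Ш¹(O_(K,S), Z_p(r)) = 0`. -/
def ShaVanishes (p : ℕ) [Fact p.Prime] (S : Set ℕ) (r : ℕ) (K : IntermediateField ℚ Ω) : Prop :=
  ∀ f : K.fixingSubgroup → ℤ_[p], IsShaCocycle p S r K f → ∃ b : ℤ_[p], ∀ σ, f σ = (chi p σ.1 ^ r - 1) * b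

/-! ## The cyclic cubic fields -/

/-- `L` is a cyclic cubic field. -/
def IsCyclicCubic (L : IntermediateField ℚ Ω) : Prop := IsGalois ℚ L ∧ Module.finrank ℚ L = 3

/-- The prime number `l` divides the discriminant of `L`. -/
def Ramified (l : ℕ) (L : IntermediateField ℚ Ω) : Prop := ∃ _ : NumberField L, (l : ℤ) ∣ discr L

/-- The pairs of a tuple of `k` different prime numbers `q i ≠ 3`, `q i ≤ X i`, and a cyclic cubic field which is ramified,
among the prime numbers different from `3`, exactly at the `q i`. -/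
def Family {k : ℕ} (X : Fin k → ℕ) : Set ((Fin k → ℕ) × IntermediateField ℚ Ω) :=
  {t | (Function.Injective t.1 ∧ ∀ i, (t.1 i).Prime ∧ t.1 i ≠ 3 ∧ t.1 i ≤ X i) ∧ IsCyclicCubic t.2 ∧
    ∀ l : ℕ, l.Prime → l ≠ 3 → (Ramified l t.2 ↔ ∃ i, t.1 i = l)}

/-- Schneider's conjecture at `3` is true for all subfields `K` of `L(ζ_3)` (for instance `L` and `L(ζ_3)`) and all twists. -/
def SchneiderAtThree (L : IntermediateField ℚ Ω) : Prop :=
  ∀ ζ : Ω, ζ ^ 3 = 1 → ∀ K ≤ L ⊔ IntermediateField.adjoin ℚ {ζ}, ∀ (S : Set ℕ) (r : ℕ), 3 ∈ S → 1 ≤ r →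
    ShaVanishes 3 S r K

/-- `P X` is true for all large `X 0`, for all `X 1` which are large in terms of `X 0`, …, for all `X (k-1)` which are
large in terms of the others. -/
def Nested : (k : ℕ) → ((Fin k → ℕ) → Prop) → Prop
  | 0, P => P Fin.elim0
  | k + 1, P => Nested k fun X => ∀ᶠ x : ℕ in atTop, P (Fin.snoc (α := fun _ => ℕ) X x)

theorem nested_iff : ∀ (k : ℕ) (P : (Fin k → ℕ) → Prop), Nested k P ↔ Q283.LQ.Nest k P
  | 0, _ => Iff.rfl
  | k + 1, _ => nested_iff k _

theorem sha_iff (p : ℕ) [Fact p.Prime] (S : Set ℕ) (r : ℕ) (K : IntermediateField ℚ Ω) (f : K.fixingSubgroup → ℤ_[p]) :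
    IsShaCocycle p S r K f ↔ Q283.SP.InSha S (fun σ : K.fixingSubgroup => Q283.SP.chi p σ.1 ^ r) f := by
  constructor
  · intro h
    exact ⟨⟨h.cont, h.cocycle⟩, h.unramified, h.locally_trivial⟩
  · intro h
    exact ⟨h.coc.cont, h.coc.coc, h.unr, h.loc⟩

end

theorem of_van {Ω : Type} [Field Ω] [CharZero Ω] {S : Set ℕ} {r : ℕ} {K : IntermediateField ℚ Ω}
    (h : H16.CC.Van S r K) : ShaVanishes 3 S r K := fun f hf => h f ((sha_iff 3 S r K f).mp hf)

/-- **Main result.** -/
theorem result (Ω : Type) [Field Ω] [CharZero Ω] [IsAlgClosed Ω] [Algebra.IsAlgebraic ℚ Ω] :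
    (∀ k : ℕ, 1 ≤ k → ∀ ε : ℝ, 0 < ε → Nested k fun X =>
      (Family (Ω := Ω) X).Finite ∧ (Family (Ω := Ω) X).Nonempty ∧
      (∏ j ∈ Finset.range k, (1 - 1 / (3 : ℝ) ^ (j + 1)) - ε) * ((Family (Ω := Ω) X).ncard : ℝ) ≤
        ({t ∈ Family (Ω := Ω) X | SchneiderAtThree t.2}.ncard : ℝ)) ∧
    ∀ k : ℕ, 0.56 < ∏ j ∈ Finset.range k, (1 - 1 / (3 : ℝ) ^ (j + 1)) := by
  refine ⟨fun k hk ε hε => ?_, fun k => H16.CC.shr_ge k⟩
  obtain ⟨n, rfl⟩ : ∃ n, k = n + 1 := ⟨k - 1, by omega⟩
  have hne : NeZero ((3 : ℕ) : Ω) := ⟨by norm_num⟩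
  obtain ⟨ω, hω⟩ := HasEnoughRootsOfUnity.exists_primitiveRoot Ω 3
  have hcyc : IsCyclotomicExtension {3} ℚ (IntermediateField.adjoin ℚ {ω}) :=
    hω.intermediateField_adjoin_isCyclotomicExtension ℚ
  have hmem : ω ∈ IntermediateField.adjoin ℚ {ω} := IntermediateField.mem_adjoin_simple_self ℚ ω
  generalize IntermediateField.adjoin ℚ {ω} = F at *
  have hnf : NumberField F := IsCyclotomicExtension.numberField {3} ℚ F
  have hω' : IsPrimitiveRoot (⟨ω, hmem⟩ : F) 3 := IsPrimitiveRoot.of_map_of_injective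
    (f := algebraMap F Ω) hω (algebraMap F Ω).injective
  obtain ⟨c, hc⟩ := H16.CC.exists_ctx hω'
  rw [nested_iff]
  refine Q14.LK.nest_mono (n + 1) ?_ (H16.CC.main (Ω := Ω) c n ε hε)
  rintro X ⟨h1, h2, h3⟩
  refine ⟨h1, h2, le_trans h3 ?_⟩
  have h4 : {q ∈ H16.CC.Fm (Ω := Ω) X | ∀ K ≤ q.2 ⊔ F, ∀ (S : Set ℕ) (r : ℕ), 3 ∈ S → 1 ≤ r →
      H16.CC.Van S r K} ⊆ {t ∈ Family (Ω := Ω) X | SchneiderAtThree t.2} := by
    rintro q ⟨h5, h6⟩
    refine ⟨h5, ?_⟩
    intro ζ hζ K hK S r hS hr
    refine of_van (h6 K (le_trans hK (sup_le_sup le_rfl ?_)) S r hS hr)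
    rw [IntermediateField.adjoin_simple_le_iff]
    obtain ⟨i, -, hi⟩ := hω.eq_pow_of_pow_eq_one hζ
    rw [← hi]
    exact pow_mem hmem i
  exact_mod_cast Set.ncard_le_ncard h4 (h1.subset fun q hq => hq.1)

end Pool.Agent.Results.MP_59f3ad_nt.CyclicCubicFields
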